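import Pool.Agent.Lib.MP_60fb2a_nt.An.All
import Pool.Agent.Lib.MP_60fb2a_nt.R.All
import Pool.Agent.Lib.MP_60fb2a_nt.G.Cls
import Pool.Agent.Lib.MP_60fb2a_nt.G.Lne

/-!
MP_60fb2a_nt: assembly of all parts.
-/

set_option autoImplicit false

namespace Pool.Agent.Lib.NagA

open Polynomial Finset Classical

theorem aClsA : ClsA := tClsA aGen aBdd R.rankAll R.tGrp
theorem aClsL : ClsL := tClsL aGen aBdd R.rankAll R.tGrp
theorem aClsM : ClsM := tClsM aGen aBdd R.rankAll R.tGrp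

theorem aLne (A B : ℤ[X]) (hd : 4 * A ^ 3 + 27 * B ^ 2 ≠ 0) (hfin : Module.Finite ℤ (R.Pt (R.dd A) (R.dd B))) :
    {d : ℤ | Squarefree d ∧ rk (twA d A) (twB d B) ≠ 0}.Finite :=
  tLne R.tGrp R.tMap R.tSig R.tGal A B hd hfin

end Pool.Agent.Lib.NagA
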