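import Mathlib

/-!
MP_60fb2a_nt (Nagao's conjecture): definitions. For `A, B ∈ ℤ[T]` let `E : y ^ 2 = x ^ 3 + A(T) x + B(T)`;
`Av A B p` is the mean of the Frobenius traces of the fibres modulo `p`, `NS A B X` the Nagao sum
`-(1/X) ∑_{p ≤ X} A_p log p`, `crv A B` the curve over `ℚ(T)`, `rk A B` the rank of its Mordell-Weil group,
`(twA d A, twB d B)` the quadratic twist by the integer `d`. The expressions are those of the frozen statement.
-/

set_option autoImplicit false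

namespace Pool.Agent.Lib.NagA

open Polynomial Finset Classical

/-- the mean over `t` modulo `p` of the Frobenius traces `a_p(E_t) = p - #{(x, y) : y^2 = x^3 + A(t) x + B(t)}` -/
noncomputable def Av (A B : ℤ[X]) (p : ℕ) : ℝ :=
  (1 / (p : ℝ)) * ∑ t ∈ Finset.range p,
    ((p : ℝ) - (((Finset.range p ×ˢ Finset.range p).filter
      (fun xy : ℕ × ℕ => (p : ℤ) ∣ (xy.2 : ℤ) ^ 2 -
        ((xy.1 : ℤ) ^ 3 + A.eval (t : ℤ) * (xy.1 : ℤ) + B.eval (t : ℤ)))).card : ℝ))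

/-- the Nagao sum `-(1/X) ∑_{p ≤ X} A_p log p` -/
noncomputable def NS (A B : ℤ[X]) (X : ℝ) : ℝ :=
  -(1 / X) * ∑ p ∈ (Finset.range (⌊X⌋₊ + 1)).filter Nat.Prime, Av A B p * Real.log p

/-- the logarithmic Nagao sum `-(1/log X) ∑_{p ≤ X} A_p (log p) / p` -/
noncomputable def NL (A B : ℤ[X]) (X : ℝ) : ℝ :=
  -(1 / Real.log X) * ∑ p ∈ (Finset.range (⌊X⌋₊ + 1)).filter Nat.Prime,
    Av A B p * (Real.log p / p)

/-- the curve `y ^ 2 = x ^ 3 + A(T) x + B(T)` over `ℚ(T)` -/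
noncomputable def crv (A B : ℤ[X]) : WeierstrassCurve (RatFunc ℚ) :=
  ⟨0, 0, 0, algebraMap (Polynomial ℚ) (RatFunc ℚ) (A.map (Int.castRingHom ℚ)),
    algebraMap (Polynomial ℚ) (RatFunc ℚ) (B.map (Int.castRingHom ℚ))⟩

/-- the rank of the Mordell-Weil group over `ℚ(T)` -/
noncomputable def rk (A B : ℤ[X]) : ℕ := Module.finrank ℤ (crv A B).toAffine.Point

/-- the quadratic twist by `d`: `y ^ 2 = x ^ 3 + d ^ 2 A x + d ^ 3 B` -/
noncomputable def twA (d : ℤ) (A : ℤ[X]) : ℤ[X] := C (d ^ 2) * A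

/-- the quadratic twist by `d`: `y ^ 2 = x ^ 3 + d ^ 2 A x + d ^ 3 B` -/
noncomputable def twB (d : ℤ) (B : ℤ[X]) : ℤ[X] := C (d ^ 3) * B

/-- The polynomial `D` is not a constant times a square (the curve `D y^2 = x^3 + a x + b` is non-split). -/
def NCS (D : ℤ[X]) : Prop := ∀ (c : ℚ) (g : ℚ[X]), D.map (Int.castRingHom ℚ) ≠ C c * g ^ 2

/-- Rank part (helper30, directory R): for `E : y^2 = x^3 + a D^2 x + b D^3` (isomorphic to `D y^2 = x^3 + a x + b`)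
only finitely many squarefree `d` give a twist of positive rank. -/
def RankStmt : Prop := ∀ (a b : ℤ) (D : ℤ[X]), 4 * a ^ 3 + 27 * b ^ 2 ≠ 0 → NCS D →
  {d : ℤ | Squarefree d ∧ rk (twA d (C a * D ^ 2)) (twB d (C b * D ^ 3)) ≠ 0}.Finite

end Pool.Agent.Lib.NagA
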