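import Pool.Agent.Lib.MP_60fb2a_nt.An.SpecL

/-!
MP_60fb2a_nt: the final statements `FinStmt` (families `D y^2 = x^3 + a x + b`) and `GenStmt` (all curves with bounded
averages), from the statements of the parts An and R.
-/

set_option autoImplicit false

namespace Pool.Agent.Lib.NagA

open Polynomial Finset Classical

/-- for all but finitely many squarefree `d` every point over `ℚ(T)` of the twist by `d` of
`y^2 = x^3 + a D^2 x + b D^3` is killed by `2` (proved in part R) -/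
def TorStmt : Prop := ∀ (a b : ℤ) (D : ℤ[X]), 4 * a ^ 3 + 27 * b ^ 2 ≠ 0 → NCS D →
  {d : ℤ | Squarefree d ∧ ∃ P : (crv (twA d (C a * D ^ 2)) (twB d (C b * D ^ 3))).toAffine.Point,
    (2 : ℤ) • P ≠ 0}.Finite

/-- almost all squarefree integers `d` have the property `P`: at most `N^(1-η)` exceptions with `|d| ≤ N` -/
def AlmostAll (P : ℤ → Prop) : Prop := ∃ η : ℝ, 0 < η ∧ ∃ N₀ : ℕ, ∀ N : ℕ, N₀ ≤ N →
  (({d : ℤ | Squarefree d ∧ |d| ≤ N ∧ ¬ P d}).ncard : ℝ) ≤ (N : ℝ) ^ (1 - η)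

/-- the family `y^2 = x^3 + a D^2 x + b D^3` (that is `D y^2 = x^3 + a x + b`) and its quadratic twists -/
def FinStmt : Prop := ∀ (a b : ℤ) (D : ℤ[X]), 4 * a ^ 3 + 27 * b ^ 2 ≠ 0 → NCS D →
  (∀ ε δ : ℝ, 0 < ε → 0 < δ → δ < 1 → AlmostAll (fun d =>
    (∀ P : (crv (twA d (C a * D ^ 2)) (twB d (C b * D ^ 3))).toAffine.Point, (2 : ℤ) • P = 0) ∧
    (∀ X : ℝ, Real.log |(d : ℝ)| ^ 5 ≤ X → X ≤ Real.exp (|(d : ℝ)| ^ (1 - δ)) →
      |NS (twA d (C a * D ^ 2)) (twB d (C b * D ^ 3)) X -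
        rk (twA d (C a * D ^ 2)) (twB d (C b * D ^ 3))| ≤ ε) ∧
    (∀ X : ℝ, |(d : ℝ)| ≤ X → X ≤ Real.exp (Real.exp (|(d : ℝ)| ^ (1 - δ))) →
      |NL (twA d (C a * D ^ 2)) (twB d (C b * D ^ 3)) X -
        rk (twA d (C a * D ^ 2)) (twB d (C b * D ^ 3))| ≤ ε))) ∧
  (∃ K : ℝ, ∀ S : Finset ℤ, (∀ d ∈ S, Squarefree d) → ∃ X₀ : ℝ, ∀ X : ℝ, X₀ ≤ X →
    ∑ d ∈ S, (NS (twA d (C a * D ^ 2)) (twB d (C b * D ^ 3)) X -
      rk (twA d (C a * D ^ 2)) (twB d (C b * D ^ 3))) ^ 2 ≤ K)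

/-- all curves with bounded fibral averages -/
def GenStmt : Prop := ∀ (A B : ℤ[X]) (K : ℝ), (∀ p : ℕ, p.Prime → |Av A B p| ≤ K) →
  (∀ ε δ : ℝ, 0 < ε → 0 < δ → δ < 1 → AlmostAll (fun d =>
    (∀ X : ℝ, Real.log |(d : ℝ)| ^ 5 ≤ X → X ≤ Real.exp (|(d : ℝ)| ^ (1 - δ)) →
      |NS (twA d A) (twB d B) X| ≤ ε) ∧
    (∀ X : ℝ, |(d : ℝ)| ≤ X → X ≤ Real.exp (Real.exp (|(d : ℝ)| ^ (1 - δ))) →
      |NL (twA d A) (twB d B) X| ≤ ε))) ∧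
  (∀ S : Finset ℤ, (∀ d ∈ S, Squarefree d) → ∀ κ : ℝ, 0 < κ → ∃ X₀ : ℝ, ∀ X : ℝ, X₀ ≤ X →
    ∑ d ∈ S, NS (twA d A) (twB d B) X ^ 2 ≤ K ^ 2 + κ)

theorem exc_finite (N : ℕ) (P : ℤ → Prop) : {d : ℤ | Squarefree d ∧ |d| ≤ N ∧ ¬ P d}.Finite := by
  refine (Finset.finite_toSet (Finset.Icc (-(N : ℤ)) N)).subset ?_
  rintro d ⟨-, hd, -⟩
  rw [Finset.mem_coe, Finset.mem_Icc]
  exact abs_le.mp hd

/-- Intersection of two properties. -/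
theorem AlmostAll.and {P Q : ℤ → Prop} (hP : AlmostAll P) (hQ : AlmostAll Q) :
    AlmostAll (fun d => P d ∧ Q d) := by
  obtain ⟨η1, h1, N1, H1⟩ := hP
  obtain ⟨η2, h2, N2, H2⟩ := hQ
  set η := min η1 η2 with hη
  have hη0 : 0 < η := lt_min h1 h2
  obtain ⟨M, hM⟩ := exists_nat_ge ((2 : ℝ) ^ (2 / η))
  refine ⟨η / 2, by positivity, max (max N1 N2) (max M 1), fun N hN => ?_⟩
  have hN1 : N1 ≤ N := le_trans (le_trans (le_max_left _ _) (le_max_left _ _)) hN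
  have hN2 : N2 ≤ N := le_trans (le_trans (le_max_right _ _) (le_max_left _ _)) hN
  have hNM : M ≤ N := le_trans (le_trans (le_max_left _ _) (le_max_right _ _)) hN
  have hN0 : 1 ≤ N := le_trans (le_trans (le_max_right _ _) (le_max_right _ _)) hN
  have hN0' : (1 : ℝ) ≤ N := by exact_mod_cast hN0
  have hNpos : (0 : ℝ) < N := by linarith
  have hsub : {d : ℤ | Squarefree d ∧ |d| ≤ N ∧ ¬ (P d ∧ Q d)} ⊆
      {d : ℤ | Squarefree d ∧ |d| ≤ N ∧ ¬ P d} ∪ {d : ℤ | Squarefree d ∧ |d| ≤ N ∧ ¬ Q d} := by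
    rintro d ⟨hd1, hd2, hd3⟩
    by_cases hp : P d
    · right
      exact ⟨hd1, hd2, fun hq => hd3 ⟨hp, hq⟩⟩
    · left
      exact ⟨hd1, hd2, hp⟩
  have hc : (({d : ℤ | Squarefree d ∧ |d| ≤ N ∧ ¬ (P d ∧ Q d)}).ncard : ℝ) ≤
      (({d : ℤ | Squarefree d ∧ |d| ≤ N ∧ ¬ P d}).ncard : ℝ) +
        (({d : ℤ | Squarefree d ∧ |d| ≤ N ∧ ¬ Q d}).ncard : ℝ) := by
    exact_mod_cast le_trans (Set.ncard_le_ncard hsub ((exc_finite N P).union (exc_finite N Q)))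
      (Set.ncard_union_le _ _)
  have e1 : (N : ℝ) ^ (1 - η1) ≤ (N : ℝ) ^ (1 - η) :=
    Real.rpow_le_rpow_of_exponent_le hN0' (by have := min_le_left η1 η2; linarith)
  have e2 : (N : ℝ) ^ (1 - η2) ≤ (N : ℝ) ^ (1 - η) :=
    Real.rpow_le_rpow_of_exponent_le hN0' (by have := min_le_right η1 η2; linarith)
  have e3 : (2 : ℝ) ≤ (N : ℝ) ^ (η / 2) := by
    have h3 : (2 : ℝ) ^ (2 / η) ≤ N := le_trans hM (by exact_mod_cast hNM)
    calc (2 : ℝ) = ((2 : ℝ) ^ (2 / η)) ^ (η / 2) := by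
          rw [← Real.rpow_mul (by norm_num)]
          rw [show (2 / η) * (η / 2) = 1 by field_simp]
          rw [Real.rpow_one]
      _ ≤ (N : ℝ) ^ (η / 2) := Real.rpow_le_rpow (by positivity) h3 (by positivity)
  have e4 : (N : ℝ) ^ (1 - η / 2) = (N : ℝ) ^ (η / 2) * (N : ℝ) ^ (1 - η) := by
    rw [← Real.rpow_add hNpos]
    congr 1
    ring
  have e5 : 0 ≤ (N : ℝ) ^ (1 - η) := by positivity
  calc (({d : ℤ | Squarefree d ∧ |d| ≤ N ∧ ¬ (P d ∧ Q d)}).ncard : ℝ)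
      ≤ (N : ℝ) ^ (1 - η1) + (N : ℝ) ^ (1 - η2) := le_trans hc (add_le_add (H1 N hN1) (H2 N hN2))
    _ ≤ 2 * (N : ℝ) ^ (1 - η) := by linarith
    _ ≤ (N : ℝ) ^ (η / 2) * (N : ℝ) ^ (1 - η) := mul_le_mul_of_nonneg_right e3 e5
    _ = (N : ℝ) ^ (1 - η / 2) := e4.symm

/-- A property with finitely many squarefree exceptions. -/
theorem AlmostAll.of_finite {P : ℤ → Prop} (h : {d : ℤ | Squarefree d ∧ ¬ P d}.Finite) : AlmostAll P := by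
  obtain ⟨M, hM⟩ := exists_nat_ge (({d : ℤ | Squarefree d ∧ ¬ P d}.ncard : ℝ) ^ (2 : ℝ))
  refine ⟨1 / 2, by norm_num, max M 1, fun N hN => ?_⟩
  have hNM : M ≤ N := le_trans (le_max_left _ _) hN
  have h1 : (({d : ℤ | Squarefree d ∧ |d| ≤ N ∧ ¬ P d}).ncard : ℝ) ≤ {d : ℤ | Squarefree d ∧ ¬ P d}.ncard := by
    have hs : {d : ℤ | Squarefree d ∧ |d| ≤ N ∧ ¬ P d} ⊆ {d : ℤ | Squarefree d ∧ ¬ P d} :=
      fun d hd => ⟨hd.1, hd.2.2⟩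
    exact_mod_cast Set.ncard_le_ncard hs h
  refine le_trans h1 ?_
  have h2 : ({d : ℤ | Squarefree d ∧ ¬ P d}.ncard : ℝ) ^ (2 : ℝ) ≤ N := le_trans hM (by exact_mod_cast hNM)
  calc ({d : ℤ | Squarefree d ∧ ¬ P d}.ncard : ℝ) =
        (({d : ℤ | Squarefree d ∧ ¬ P d}.ncard : ℝ) ^ (2 : ℝ)) ^ (1 / 2 : ℝ) := by
        rw [← Real.rpow_mul (by positivity)]
        norm_num
    _ ≤ (N : ℝ) ^ (1 / 2 : ℝ) := Real.rpow_le_rpow (by positivity) h2 (by norm_num)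
    _ = (N : ℝ) ^ (1 - 1 / 2 : ℝ) := by norm_num

/-- Weakening. -/
theorem AlmostAll.mono {P Q : ℤ → Prop} (hP : AlmostAll P) (h : ∀ d, P d → Q d) : AlmostAll Q := by
  obtain ⟨η, h1, N₀, H⟩ := hP
  refine ⟨η, h1, N₀, fun N hN => le_trans ?_ (H N hN)⟩
  have hs : {d : ℤ | Squarefree d ∧ |d| ≤ N ∧ ¬ Q d} ⊆ {d : ℤ | Squarefree d ∧ |d| ≤ N ∧ ¬ P d} :=
    fun d hd => ⟨hd.1, hd.2.1, fun hp => hd.2.2 (h d hp)⟩
  exact_mod_cast Set.ncard_le_ncard hs (exc_finite N P)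

/-- From the statements with `Sq` and an existential quantifier. -/
theorem AlmostAll.of_card {P : ℤ → Prop} {Q : ℤ → Prop} (η : ℝ) (hη : 0 < η) (N₀ : ℕ)
    (H : ∀ N : ℕ, N₀ ≤ N → (((Sq N).filter (fun d => Q d)).card : ℝ) ≤ (N : ℝ) ^ (1 - η))
    (h : ∀ d, ¬ P d → Q d) : AlmostAll P := by
  refine ⟨η, hη, N₀, fun N hN => le_trans ?_ (H N hN)⟩
  have hsub : {d : ℤ | Squarefree d ∧ |d| ≤ N ∧ ¬ P d} ⊆ (((Sq N).filter (fun d => Q d) : Finset ℤ) : Set ℤ) := by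
    rintro d ⟨hd1, hd2, hd3⟩
    rw [Finset.mem_coe, Finset.mem_filter]
    unfold Sq
    rw [Finset.mem_filter, Finset.mem_Icc]
    exact ⟨⟨abs_le.mp hd2, hd1⟩, h d hd3⟩
  have h1 := Set.ncard_le_ncard hsub (Finset.finite_toSet _)
  rw [Set.ncard_coe_finset] at h1
  exact_mod_cast h1

theorem tGen (h1 : OneStmt) (h2 : TwoStmt) (h3 : ThrStmt) : GenStmt := by
  intro A B K hK
  refine ⟨fun ε δ hε hδ hδ1 => ?_, fun S hS κ hκ => h2 A B K hK S hS κ hκ⟩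
  have a1 : AlmostAll (fun d : ℤ => ∀ X : ℝ, Real.log |(d : ℝ)| ^ 5 ≤ X → X ≤ Real.exp (|(d : ℝ)| ^ (1 - δ)) →
      |NS (twA d A) (twB d B) X| ≤ ε) := by
    obtain ⟨η, hη, N₀, H⟩ := h1 A B ⟨K, hK⟩ ε δ hε hδ hδ1
    refine AlmostAll.of_card η hη N₀ H ?_
    intro d h
    push Not at h
    obtain ⟨X, hX1, hX2, hX3⟩ := h
    exact ⟨X, ⟨hX1, hX2⟩, hX3⟩
  have a2 : AlmostAll (fun d : ℤ => ∀ X : ℝ, |(d : ℝ)| ≤ X → X ≤ Real.exp (Real.exp (|(d : ℝ)| ^ (1 - δ))) →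
      |NL (twA d A) (twB d B) X| ≤ ε) := by
    obtain ⟨η, hη, N₀, H⟩ := h3 A B ⟨K, hK⟩ ε δ hε hδ hδ1
    refine AlmostAll.of_card η hη N₀ H ?_
    intro d h
    push Not at h
    obtain ⟨X, hX1, hX2, hX3⟩ := h
    exact ⟨X, ⟨hX1, hX2⟩, hX3⟩
  exact a1.and a2

theorem tFin (h1 : GenStmt) (h2 : BddStmt) (h3 : TorStmt) (h4 : RankStmt) : FinStmt := by
  intro a b D hab hD
  obtain ⟨K, hK⟩ := h2 a b D hD
  obtain ⟨g1, g2⟩ := h1 (C a * D ^ 2) (C b * D ^ 3) K hK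
  have ht := h3 a b D hab hD
  have hr := h4 a b D hab hD
  refine ⟨fun ε δ hε hδ hδ1 => ?_, ?_⟩
  · have a1 : AlmostAll (fun d => ∀ P : (crv (twA d (C a * D ^ 2)) (twB d (C b * D ^ 3))).toAffine.Point,
        (2 : ℤ) • P = 0) := by
      apply AlmostAll.of_finite
      refine ht.subset ?_
      rintro d ⟨hd1, hd2⟩
      push Not at hd2
      exact ⟨hd1, hd2⟩
    have a2 : AlmostAll (fun d => rk (twA d (C a * D ^ 2)) (twB d (C b * D ^ 3)) = 0) := by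
      apply AlmostAll.of_finite
      exact hr
    refine ((a1.and a2).and (g1 ε δ hε hδ hδ1)).mono ?_
    rintro d ⟨⟨hd1, hd2⟩, hd3, hd4⟩
    refine ⟨hd1, fun X hX1 hX2 => ?_, fun X hX1 hX2 => ?_⟩
    · rw [hd2]
      simpa using hd3 X hX1 hX2
    · rw [hd2]
      simpa using hd4 X hX1 hX2
  · set r : ℤ → ℝ := fun d => (rk (twA d (C a * D ^ 2)) (twB d (C b * D ^ 3)) : ℝ) with hrdef
    refine ⟨2 * (K ^ 2 + 1) + 2 * ∑ d ∈ hr.toFinset, r d ^ 2, fun S hS => ?_⟩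
    obtain ⟨X₀, hX₀⟩ := g2 S hS 1 one_pos
    refine ⟨X₀, fun X hX => ?_⟩
    have h5 := hX₀ X hX
    have h6 : ∑ d ∈ S, r d ^ 2 ≤ ∑ d ∈ hr.toFinset, r d ^ 2 := by
      have h7 : ∑ d ∈ S, r d ^ 2 = ∑ d ∈ S.filter (fun d => r d ≠ 0), r d ^ 2 := by
        symm
        apply Finset.sum_filter_of_ne
        intro d _ hd hd0
        apply hd
        rw [hd0]
        ring
      rw [h7]
      apply Finset.sum_le_sum_of_subset_of_nonneg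
      · intro d hd
        rw [Finset.mem_filter] at hd
        rw [Set.Finite.mem_toFinset]
        refine ⟨hS d hd.1, fun h8 => hd.2 ?_⟩
        simp only [hrdef]
        rw [h8]
        simp
      · intro d _ _
        positivity
    calc ∑ d ∈ S, (NS (twA d (C a * D ^ 2)) (twB d (C b * D ^ 3)) X - r d) ^ 2
        ≤ ∑ d ∈ S, (2 * NS (twA d (C a * D ^ 2)) (twB d (C b * D ^ 3)) X ^ 2 + 2 * r d ^ 2) := by
          apply Finset.sum_le_sum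
          intro d _
          nlinarith [sq_nonneg (NS (twA d (C a * D ^ 2)) (twB d (C b * D ^ 3)) X + r d)]
      _ = 2 * ∑ d ∈ S, NS (twA d (C a * D ^ 2)) (twB d (C b * D ^ 3)) X ^ 2 + 2 * ∑ d ∈ S, r d ^ 2 := by
          rw [Finset.sum_add_distrib, Finset.mul_sum, Finset.mul_sum]
      _ ≤ 2 * (K ^ 2 + 1) + 2 * ∑ d ∈ hr.toFinset, r d ^ 2 := by linarith

end Pool.Agent.Lib.NagA
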